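import Pool.Agent.Helper72.D4.GB4

/-!
Row A4 of the sheet D4 (MP_fcb106_co, version 4): the case of two smaller graphs.
-/

set_option autoImplicit false

namespace Pool.Agent.Helper72.D4

open Finset Pool.Agent.Helper33.DP Pool.Agent.Helper63.D4

/-- **A4**, the case of two smaller graphs. -/
theorem A4 (hT1 : ST_T1E) (hBF : ST_BF) (hB : ST_BDR) : ST_A4 := by
  classical
  intro w G G₁ G₂ μ hw hG h1 h2 hc hgood hlt1 hlt2
  have hμ1 := GB4 w G μ hw hG hgood
  obtain ⟨h0, R, C, hR, hC, hbdd⟩ := hgood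
  have hw1 : (1 : ℝ) ≤ w := by exact_mod_cast hw
  obtain ⟨g, hg⟩ : ∃ g : ℝ, g = g4 w G.card := ⟨_, rfl⟩
  rw [← hg] at hbdd
  have hg8 : 13 ≤ g := by
    have a1 : (1 : ℝ) ≤ G.card := by exact_mod_cast hw.trans (core_card hG)
    rw [hg]
    unfold g4
    linarith
  have num : ∀ m : ℕ, m < G.card → 1 / (g - 1) / (1 - 4 * (1 / (g - 1))) ≤ 1 / g4 w m := by
    intro m hmG
    have a1 : (m : ℝ) + 1 ≤ G.card := by exact_mod_cast hmG
    have a3 : 0 < g4 w m := g4_pos hw
    have a4 : 1 / (g - 1) / (1 - 4 * (1 / (g - 1))) = 1 / (g - 5) := by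
      have h5 : g - 1 ≠ 0 := by linarith
      have h7 : 1 - 4 * (1 / (g - 1)) = (g - 5) / (g - 1) := by
        field_simp
        ring
      rw [h7, div_div, mul_div_cancel₀ _ h5]
    rw [a4]
    refine one_div_le_one_div_of_le a3 ?_
    rw [hg]
    unfold g4
    linarith
  have hβ0 : 0 < 1 / (g - 1) := by
    have : 0 < g - 1 := by linarith
    positivity
  have hββ : 1 / g < 1 / (g - 1) := one_div_lt_one_div_of_lt (by linarith) (by linarith)
  have hwβ : 4 * (1 / (g - 1)) < 1 := by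
    rw [mul_one_div, div_lt_one (by linarith)]
    linarith
  obtain ⟨z, R₁, C₁, R₂, C₂, hz0, hzs, hzsum, hR1, hC1, hR2, hC2, hz1, hz2⟩ :=
    hT1 w G G₁ G₂ (fun a b => (μ a b : ℝ)) R C (1 / g) (1 / (g - 1)) hw h1 h2 hc
      (fun a b hab => by
        have := hμ1 a b hab
        exact_mod_cast this) hR hC hbdd hββ
  obtain ⟨n, hn⟩ : ∃ n : Fin w → Fin w → ℕ, ∀ a b, n a b =
      if (a, b) ∈ comp G₁ G₂ then μ a b else 0 := ⟨_, fun _ _ => rfl⟩
  have hzn : ∀ a b, ∑ x, z a x b = n a b := by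
    intro a b
    rw [hn]
    split_ifs with hab
    · exact hzsum a b hab
    · rw [Nat.cast_zero]
      refine sum_eq_zero fun x _ => hzs a x b fun hx => hab ?_
      unfold comp
      rw [mem_filter]
      exact ⟨mem_univ _, x, hx⟩
  obtain ⟨z', hsum', hsupp', he1, he2⟩ := hBF w z n hz0 hzn
  have hroute : Route G₁ G₂ μ z' := by
    refine ⟨fun a x b hne => ?_, fun a b hab => ?_⟩
    · by_contra hx
      exact hne (hsupp' a x b (hzs a x b hx))
    · rw [hsum' a b, hn, if_pos hab]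
  refine ⟨z', hroute, ⟨?_, R₁, C₁, hR1, hC1, ?_⟩, ⟨?_, R₂, C₂, hR2, hC2, ?_⟩⟩
  · intro a x hax
    refine sum_eq_zero fun b _ => ?_
    by_contra hne
    exact hax (hroute.supp a x b hne).1
  · have b1 := hB w G₁ (fun a x => ∑ b, z a x b + R₁ a x + C₁ a x)
      (fun a x => ((∑ b, z' a x b : ℕ) : ℝ) + R₁ a x + C₁ a x)
      (1 / (g - 1)) 4 h1 (by norm_num) hβ0 hwβ hz1 (fun a x _ => by
        have h3 := (abs_le.1 (he1 a x)).1
        push_cast
        linarith)
    exact ⟨b1.pos, fun σ hσ => (b1.le σ hσ).trans (num G₁.card hlt1)⟩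
  · intro x b hxb
    refine sum_eq_zero fun a _ => ?_
    by_contra hne
    exact hxb (hroute.supp a x b hne).2
  · have b2 := hB w G₂ (fun x b => ∑ a, z a x b + R₂ x b + C₂ x b)
      (fun x b => ((∑ a, z' a x b : ℕ) : ℝ) + R₂ x b + C₂ x b)
      (1 / (g - 1)) 4 h2 (by norm_num) hβ0 hwβ hz2 (fun x b _ => by
        have h3 := (abs_le.1 (he2 x b)).1
        push_cast
        linarith)
    exact ⟨b2.pos, fun σ hσ => (b2.le σ hσ).trans (num G₂.card hlt2)⟩

end Pool.Agent.Helper72.D4
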