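import Pool.Agent.Helper63.D4.Sheet
import Pool.Agent.Helper72.PL.FINAL

/-!
Rows S4 and FINAL4 of the sheet D4 (MP_fcb106_co, version 4).
-/

set_option autoImplicit false

namespace Pool.Agent.Helper72.D4

open Finset Pool.Agent.Helper33.DP Pool.Agent.Helper63.D4

/-- The strategy theorem from the cases. -/
theorem S4 (hSTR : ST_STR) (hGB : ST_GB4) (hA : ST_A4) (hB : ST_B4) (hBT : ST_BT4) (hC : ST_C4)
    (hSt : ST_START4) : ST_S4 := by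
  intro w hw
  refine ⟨fun G μ => Good4 G μ, ⟨⟨5 * w ^ 3 + 8 * w ^ 2, by ring, hSt w hw⟩, ?_, ?_⟩⟩
  · intro G μ hG hμ a b hab
    exact hGB w G μ hw hG hμ a b hab
  · intro G G₁ G₂ μ hG hG₁ hG₂ hc hμ
    obtain ⟨⟨h1, -⟩, ⟨h2, -⟩⟩ := hSTR w G G₁ G₂ hG₁ hG₂ hc
    have key : StepC4 G₁ G₂ μ := by
      rcases h1.lt_or_eq with h1 | h1 <;> rcases h2.lt_or_eq with h2 | h2
      · exact hA w G G₁ G₂ μ hw hG hG₁ hG₂ hc hμ h1 h2
      · exact hBT w G G₁ G₂ μ hw hG hG₁ hG₂ hc hμ h1 h2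
      · exact hB w G G₁ G₂ μ hw hG hG₁ hG₂ hc hμ h1 h2
      · exact hC w G G₁ G₂ μ hw hG hG₁ hG₂ hc hμ h1 h2
    exact key

/-- the sum of the numbers of colours -/
theorem sum_le4 (w : ℕ) :
    ∑ v ∈ range w, (5 * (v + 1) ^ 5 + 8 * (v + 1) ^ 4) ≤ w ^ 6 + 12 * w ^ 5 := by
  induction w with
  | zero => simp
  | succ w ih =>
    rw [sum_range_succ]
    have e : (w + 1) ^ 6 + 12 * (w + 1) ^ 5 = (w ^ 6 + 12 * w ^ 5) +
        (5 * (w + 1) ^ 5 + 8 * (w + 1) ^ 4) +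
        (w ^ 5 + 42 * w ^ 4 + 58 * w ^ 3 + 37 * w ^ 2 + 9 * w) := by ring
    rw [e]
    omega

/-- **FINAL4** -/
theorem FINAL4 (hS : ST_S4) (hSPLIT : ST_SPLIT) (hPARTB : ST_PARTB) : ST_FINAL4 := fun w _ =>
  Pool.Agent.Helper72.PL.suffices_of hSPLIT hPARTB (fun w => 5 * w ^ 5 + 8 * w ^ 4) hS w _
    (sum_le4 w)

end Pool.Agent.Helper72.D4
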