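import Pool.Agent.Helper33.PL.Order
import Pool.Agent.Helper33.PL.Base
import Pool.Agent.Helper85.D4.CL
import Pool.Agent.Helper85.D4.LR4
import Pool.Agent.Helper26.D4.MB
import Pool.Agent.Helper26.D4.B4
import Pool.Agent.Helper78.D4.BF
import Pool.Agent.Helper78.D4.BL
import Pool.Agent.Helper78.D4.BT4
import Pool.Agent.Helper2.D4.PEX4
import Pool.Agent.Helper63.D4.T1E
import Pool.Agent.Helper72.D4.A4
import Pool.Agent.Helper72.D4.S4

/-! Assembly of the rows of the sheet D4 (MP_fcb106_co). -/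

set_option autoImplicit false

namespace Pool.Agent.Helper72.D4

open Finset Pool.Agent.Helper33.DP Pool.Agent.Helper63.D4
open Pool.Agent.Helper33.PL (partB split str bgp bdr)

theorem all_T1E : ST_T1E :=
  Pool.Agent.Helper63.D4.T1E Pool.Agent.Helper26.PL.ML Pool.Agent.Helper59.PL.DS1
    Pool.Agent.Helper85.PL.DS2 Pool.Agent.Helper85.PL.DS3 Pool.Agent.Helper85.PL.DS4
    Pool.Agent.Helper85.D4.CL1 Pool.Agent.Helper85.D4.CL2

theorem all_A4 : ST_A4 := A4 all_T1E Pool.Agent.Helper78.D4.BF bdr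

theorem all_BL : ST_BL := Pool.Agent.Helper78.D4.BL Pool.Agent.Helper59.PL.DS1

theorem all_PEX4 : ST_PEX4 :=
  Pool.Agent.Helper2.D4.PEX4 Pool.Agent.Helper26.PL.ML Pool.Agent.Helper85.PL.DS3
    Pool.Agent.Helper85.PL.DS4

theorem all_MB : ST_MB :=
  Pool.Agent.Helper26.D4.MB Pool.Agent.Helper85.D4.LR4 Pool.Agent.Helper85.D4.CL1
    Pool.Agent.Helper85.D4.CL2 Pool.Agent.Helper85.D4.CL3 Pool.Agent.Helper85.D4.CL4 bgp

theorem all_B4 : ST_B4 := Pool.Agent.Helper26.D4.B4 str all_BL all_PEX4 all_MB GB4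

theorem all_C4 : ST_C4 := Pool.Agent.Helper26.D4.C4 str all_BL all_MB GB4

theorem all_S4 : ST_S4 :=
  S4 str GB4 all_A4 all_B4 (Pool.Agent.Helper78.D4.BT4 all_B4) all_C4 START4

/-- The polynomial upper bound. -/
theorem all_FINAL4 : ST_FINAL4 := FINAL4 all_S4 split partB

end Pool.Agent.Helper72.D4
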