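import Pool.Agent.Helper63.D4.Sheet

/-!
Rows GB4 and START4 of the sheet D4 (MP_fcb106_co, version 4).
-/

set_option autoImplicit false

namespace Pool.Agent.Helper72.D4

open Finset Pool.Agent.Helper33.DP Pool.Agent.Helper63.D4

/-- the entries of the vectors of the class -/
theorem cl_entry {w : ℕ} {e : Fin w → ℝ} (h : Cl e) (x : Fin w) : e x ≤ 4 * w - 2 := by
  have h1 := h.2 {x}
  rw [sum_singleton, card_singleton] at h1
  push_cast at h1
  linarith

theorem cl_zero {w : ℕ} : Cl (fun _ : Fin w => (0 : ℝ)) := by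
  refine ⟨fun _ => le_rfl, fun S => ?_⟩
  have h1 : (S.card : ℝ) ≤ w := by
    have := card_le_univ S
    rw [Fintype.card_fin] at this
    exact_mod_cast this
  rw [sum_const_zero]
  exact mul_nonneg (by positivity) (by have : (0 : ℝ) ≤ w := by positivity
                                       linarith)

theorem g4_pos {w m : ℕ} (hw : 1 ≤ w) : 0 < g4 w m := by
  have h1 : (1 : ℝ) ≤ w := by exact_mod_cast hw
  unfold g4
  positivity

/-- A core has at least `w` edges. -/
theorem core_card {w : ℕ} {G : Gr w} (hG : IsCore G) : w ≤ G.card := by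
  obtain ⟨σ, hσ⟩ := hG.ex
  have h1 : (univ.image (fun i : Fin w => (i, σ i))).card = w := by
    rw [card_image_of_injective _ (fun i j h => (Prod.mk.inj h).1), card_univ, Fintype.card_fin]
  have h2 : univ.image (fun i : Fin w => (i, σ i)) ⊆ G := by
    intro e he
    rw [mem_image] at he
    obtain ⟨i, -, rfl⟩ := he
    exact hσ i
  calc w = _ := h1.symm
    _ ≤ G.card := card_le_card h2

/-- one entry of a bounded matrix -/
theorem bdd_entry {w : ℕ} {G : Gr w} {m : Fin w → Fin w → ℝ} {g : ℝ} (hG : IsCore G)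
    (hg : 0 < g) (h : Bdd G m (1 / g)) {a b : Fin w} (hab : (a, b) ∈ G) : g ≤ m a b := by
  obtain ⟨σ, hσ, hσab⟩ := hG.edge a b hab
  have h1 := h.le σ hσ
  have h2 : (m a (σ a))⁻¹ ≤ ∑ i, (m i (σ i))⁻¹ :=
    single_le_sum (f := fun i => (m i (σ i))⁻¹)
      (fun i _ => (inv_pos.2 (h.pos i (σ i) (hσ i))).le) (mem_univ a)
  rw [hσab] at h2
  have h3 : (m a b)⁻¹ ≤ g⁻¹ := by
    rw [← one_div g]
    exact h2.trans h1
  exact (inv_le_inv₀ (h.pos a b hab) hg).1 h3

/-- **GB4** -/
theorem GB4 : ST_GB4 := by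
  intro w G μ hw hG hμ a b hab
  obtain ⟨h0, R, C, hR, hC, hB⟩ := hμ
  have h1 := bdd_entry hG (g4_pos hw) hB hab
  have h2 := cl_entry (hR a) b
  have h3 : C a b ≤ 4 * w - 2 := cl_entry (hC b) a
  have h4 : (0 : ℝ) < μ a b := by
    unfold g4 at h1
    have : (0 : ℝ) ≤ G.card := by positivity
    linarith
  have h5 : 0 < μ a b := by exact_mod_cast h4
  exact h5

/-- **START4** -/
theorem START4 : ST_START4 := by
  intro w hw
  have hw0 : (0 : ℝ) < w := by exact_mod_cast hw
  refine ⟨fun a b h => absurd (mem_univ _) h, fun _ _ => 0, fun _ _ => 0, fun _ => cl_zero,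
    fun _ => cl_zero, ⟨fun a b _ => by push_cast; positivity, fun σ _ => ?_⟩⟩
  have hc : (univ : Gr w).card = w ^ 2 := by
    rw [card_univ, Fintype.card_prod, Fintype.card_fin]; ring
  rw [hc]
  simp only [sum_const, card_univ, Fintype.card_fin, nsmul_eq_mul, add_zero]
  unfold g4
  push_cast
  apply le_of_eq
  field_simp
  ring

end Pool.Agent.Helper72.D4
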